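import Pool.Agent.H370LR.Main

set_option autoImplicit false

/-!
# Graphs of small rank are reconstructible

Let `F` be a field, `a ≠ b` and `c` in `F`, and let `M` be the matrix of a finite graph `G` with `n`
vertices with the entries `a` at adjacent vertices, `b` at distinct non-adjacent vertices and `c` on
the diagonal. Suppose that `c` is neither `a` nor `b`, or that `M` has no two equal rows. Let `r` be
the rank of `M`. If `n (n - 1) ⋯ (n - r + 1) < 2 ^ (n - r - 1)`, or if `n ≥ r + 3` and some set
`D` of `r` vertices with a regular principal submatrix has fewer than `2 ^ (n - r - 1)` embeddings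
into `G`, then `T(G)` and `T` of the complement of `G` are reconstructible from their decks of
maximal filter deleted subsets. (For `a = 1`, `b = 0`, `c = -μ` the number `n - r` is the
multiplicity of the eigenvalue `μ`, and the sets `D` are the star complements for `μ`.)

Idea: A copy of `D` in `G`, or in a graph `H` with the same deck, has at most one extension to every
further vertex, and all these extensions fit together. So the numbers of the partial isomorphisms
which are defined on supersets of `D` satisfy a Möbius sum (as in the proof of Nash-Williams), and a
graph `H` with the same deck which is not isomorphic to `G` would force every even set of the other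
`n - r` vertices to be the set of the vertices to which one of the copies of `D` in `G` cannot be
extended. The properties used concern at most `r + 2` vertices and therefore pass on to `H`.
-/

namespace Pool.Agent.Results.MP_552896_co.LowRank

/-- The truncated clique lattices of `G` and `H` have the same deck of maximal filter deleted
subsets: some bijection `f` of the vertex sets is such that, for every vertex `v`, the nonempty
cliques of `G` avoiding `v` and the nonempty cliques of `H` avoiding `f v`, both ordered by
inclusion, are isomorphic ordered sets. -/
def SameDeck {V W : Type} (G : SimpleGraph V) (H : SimpleGraph W) : Prop :=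
  ∃ f : V ≃ W, ∀ v : V,
    Nonempty ({s : Finset V // s.Nonempty ∧ G.IsClique (s : Set V) ∧ v ∉ s} ≃o
      {t : Finset W // t.Nonempty ∧ H.IsClique (t : Set W) ∧ f v ∉ t})

/-- `T(G)` is reconstructible from its deck: every truncated clique lattice `T(H)` of a finite
graph `H` with the same deck is isomorphic to `T(G)`. -/
def Reconstructible {V : Type} (G : SimpleGraph V) : Prop :=
  ∀ (W : Type) [Fintype W] (H : SimpleGraph W), SameDeck G H →
    Nonempty ({s : Finset V // s.Nonempty ∧ G.IsClique (s : Set V)} ≃o
      {t : Finset W // t.Nonempty ∧ H.IsClique (t : Set W)})

open Classical in
/-- The matrix of `G` with the entries `a` at adjacent vertices, `b` at distinct non-adjacent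
vertices and `c` on the diagonal. -/
noncomputable def mat {V F : Type} (G : SimpleGraph V) (a b c : F) : Matrix V V F :=
  Matrix.of (fun x y => if x = y then c else if G.Adj x y then a else b)

open Classical in
/-- `D` has as many elements as the rank of the matrix, and its principal submatrix is regular. -/
def StarComplement {V F : Type} [Fintype V] [Field F] (G : SimpleGraph V) (a b c : F)
    (D : Finset V) : Prop :=
  D.card = (mat G a b c).rank ∧
    IsUnit ((mat G a b c).submatrix (fun x : D => (x : V)) (fun x : D => (x : V)))

/-- Let the matrix `mat G a b c` over a field, `a ≠ b`, have rank `r`, and let `c` be neither `a`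
nor `b`, or let no two rows be equal. If `n (n - 1) ⋯ (n - r + 1) < 2 ^ (n - r - 1)` for the number
`n` of the vertices, or if `r + 2 < n` and there are fewer than `2 ^ (n - r - 1)` embeddings of
the subgraph induced by some star complement into `G`, then `T(G)` and `T(Gᶜ)` are
reconstructible. -/
theorem result {V F : Type} [Fintype V] [Field F] (G : SimpleGraph V) (a b c : F) (hab : a ≠ b)
    (hd : (c ≠ a ∧ c ≠ b) ∨ ∀ x y : V, mat G a b c x = mat G a b c y → x = y)
    (h : (Fintype.card V).descFactorial (mat G a b c).rank <
        2 ^ (Fintype.card V - (mat G a b c).rank - 1) ∨
      ((mat G a b c).rank + 2 < Fintype.card V ∧ ∃ D : Finset V, StarComplement G a b c D ∧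
        Nat.card (G.induce (D : Set V) ↪g G) < 2 ^ (Fintype.card V - (mat G a b c).rank - 1))) :
    Reconstructible G ∧ Reconstructible Gᶜ := by
  have hd' : ∀ x y : V, mat G a b c x = mat G a b c y → x = y := by
    rcases hd with h | h
    · exact fun x y hxy => Pool.Agent.H370LR.gm_distinct G h.1 h.2 x y hxy
    · exact h
  rcases h with h | ⟨hn, D, ⟨hD, hu⟩, hc⟩
  · exact Pool.Agent.H370LR.main G a b c hab hd' h
  · exact Pool.Agent.H370LR.main' G a b c hab hd' hn D hD hu hc

end Pool.Agent.Results.MP_552896_co.LowRank
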